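import Pool.Agent.Helper86.FF.Spec
import Pool.Agent.Helper86.FF.BH

/-!
# Firefighter on trees, parts BC and BL: the blocks of the variables and of the clauses
-/

set_option autoImplicit false
set_option linter.unusedSectionVars false

namespace Helper85.FF.BC

open Pool.FF Pool.FF.BH

section

variable {D : Type} {p : List ℕ} {ch : ℕ → D → List D} {r : D} {H : ℕ} {data : ℕ → D}
  {A : Finset ℕ}

/-- the list of the children -/
theorem kids (hD : S_DEP) (hun : IsUnf p ch r H data) {v : ℕ} (hv : v ≤ p.length)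
    (ht : dep p v < H) :
    ∃ ks : List ℕ, ks.Nodup ∧ (∀ u ∈ ks, u ≤ p.length ∧ par p u = v ∧ dep p u = dep p v + 1) ∧
      ks.map data = ch (dep p v) (data v) := by
  obtain ⟨hp, h0, hv'⟩ := hun
  obtain ⟨ks, hnd, hmem, hmap⟩ := (hv' v hv).2 ht
  refine ⟨ks, hnd, ?_, hmap⟩
  intro u hu
  obtain ⟨u1, u2, u3⟩ := (hmem u).1 hu
  have := ((hD p hp).2.2 u u1 u2).2
  rw [u3] at this
  exact ⟨u2, u3, this⟩

/-- a child with given data -/
theorem one (hD : S_DEP) (hun : IsUnf p ch r H data) {v : ℕ} (hv : v ≤ p.length)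
    (ht : dep p v < H) {y : D} (hy : y ∈ ch (dep p v) (data v)) :
    ∃ u, u ≤ p.length ∧ par p u = v ∧ dep p u = dep p v + 1 ∧ data u = y := by
  obtain ⟨ks, _, h1, h2⟩ := kids hD hun hv ht
  rw [← h2, List.mem_map] at hy
  obtain ⟨u, hu, rfl⟩ := hy
  obtain ⟨a, b, c⟩ := h1 u hu
  exact ⟨u, a, b, c, rfl⟩

/-- a burning child with given data -/
theorem surv (hD : S_DEP) (hun : IsUnf p ch r H data) {v : ℕ} (hv : v ∈ Brn p A)
    {t : ℕ} (hvt : dep p v = t) (ht : t < H) {x y : D} (hx : data v = x) (hy : y ∈ ch t x)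
    (hA : ∀ u ∈ A, dep p u = t + 1 → data u ≠ y) :
    ∃ u ∈ Brn p A, par p u = v ∧ dep p u = t + 1 ∧ data u = y := by
  subst hvt hx
  obtain ⟨u, h1, h2, h3, h4⟩ := one hD hun (mem_Brn.1 hv).1 ht hy
  exact ⟨u, child_mem_Brn hv h1 h2 (fun h => hA u h h3 h4), h2, h3, h4⟩

/-- the next level: a child is protected or burns -/
theorem next (hD : S_DEP) (hun : IsUnf p ch r H data) {v : ℕ} (hv : v ∈ Brn p A)
    {t : ℕ} (hvt : dep p v = t) (ht : t < H) {x y : D} (hx : data v = x) (hy : y ∈ ch t x) :
    ∃ u, par p u = v ∧ dep p u = t + 1 ∧ data u = y ∧ (u ∈ A ∨ u ∈ Brn p A) := by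
  subst hvt hx
  obtain ⟨u, h1, h2, h3, h4⟩ := one hD hun (mem_Brn.1 hv).1 ht hy
  refine ⟨u, h2, h3, h4, ?_⟩
  by_cases hu : u ∈ A
  · exact Or.inl hu
  · exact Or.inr (child_mem_Brn hv h1 h2 hu)

/-- counting -/
theorem cnt (hA : Hall p A) (d t : ℕ) (hd : d ≤ (A.filter (fun a => dep p a ≤ d)).card)
    (F : Finset ℕ) (hF : ∀ y ∈ F, y ∈ A ∧ d < dep p y ∧ dep p y ≤ d + t) :
    F.card ≤ t ∧ (F.card = t → (∀ y ∈ A, d < dep p y → dep p y ≤ d + t → y ∈ F) ∧
      d + t ≤ (A.filter (fun a => dep p a ≤ d + t)).card) := by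
  have hdis : Disjoint (A.filter (fun a => dep p a ≤ d)) F := by
    rw [Finset.disjoint_left]
    intro y h1 h2
    have := (Finset.mem_filter.1 h1).2
    have := (hF y h2).2.1
    omega
  have hsub : A.filter (fun a => dep p a ≤ d) ∪ F ⊆ A.filter (fun a => dep p a ≤ d + t) := by
    intro y hy
    rw [Finset.mem_filter]
    rcases Finset.mem_union.1 hy with h | h
    · have := Finset.mem_filter.1 h
      exact ⟨this.1, by omega⟩
    · exact ⟨(hF y h).1, (hF y h).2.2⟩
  have h1 := Finset.card_le_card hsub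
  rw [Finset.card_union_of_disjoint hdis] at h1
  have h2 := hA.2 (d + t)
  refine ⟨by omega, fun hc => ?_⟩
  have heq : A.filter (fun a => dep p a ≤ d) ∪ F = A.filter (fun a => dep p a ≤ d + t) := by
    apply Finset.eq_of_subset_of_card_le hsub
    rw [Finset.card_union_of_disjoint hdis]
    omega
  refine ⟨?_, by omega⟩
  intro y hy h3 h4
  have : y ∈ A.filter (fun a => dep p a ≤ d) ∪ F := by
    rw [heq, Finset.mem_filter]
    exact ⟨hy, h4⟩
  rcases Finset.mem_union.1 this with h | h
  · have := (Finset.mem_filter.1 h).2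
    omega
  · exact h

end

/-! ### the children -/

theorem ch_side2 (W g K H : ℕ) (cs : List Cl) (d r : ℕ) (hd : d ≠ 0) (hr : 2 ≤ r) :
    chF W g cs K H d (false, r, []) = [(false, r - 1, [])] := by
  simp only [chF]
  rw [if_neg hd, if_pos trivial, if_neg (by omega), if_neg (by omega)]

theorem div3 (b i : ℕ) (hi : i < 3) : (1 + 3 * b + i - 1) / 3 = b ∧ (1 + 3 * b + i - 1) % 3 = i := by
  omega

theorem ch_var0 (W g K H : ℕ) (cs : List Cl) (b : ℕ) (hb : b < W * g) (hH : 1 + 3 * b < H)
    (a : List Bool) :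
    chF W g cs K H (1 + 3 * b) (true, b / g, a) =
      [(true, b / g, a ++ [false]), (true, b / g, a ++ [true])] := by
  obtain ⟨h1, h2⟩ := div3 b 0 (by norm_num)
  rw [Nat.add_zero] at h1 h2
  simp only [chF, h1, h2]
  rw [if_neg (by omega), if_neg (by simp), if_neg (by omega), if_pos hb, if_pos trivial,
    if_pos trivial]

theorem ch_var1 (W g K H : ℕ) (cs : List Cl) (b : ℕ) (hb : b < W * g) (hH : 1 + 3 * b + 1 < H)
    (a : List Bool) :
    chF W g cs K H (1 + 3 * b + 1) (true, b / g, a) =
      [(false, 1, []), (false, 2, []), (true, b / g, a)] := by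
  obtain ⟨h1, h2⟩ := div3 b 1 (by norm_num)
  simp only [chF, h1, h2]
  rw [if_neg (by omega), if_neg (by simp), if_neg (by omega), if_pos hb, if_pos trivial,
    if_neg (by norm_num), if_pos trivial]

theorem ch_var2 (W g K H : ℕ) (cs : List Cl) (b : ℕ) (hb : b < W * g) (hH : 1 + 3 * b + 2 < H)
    (a : List Bool) :
    chF W g cs K H (1 + 3 * b + 2) (true, b / g, a) = [(true, b / g, a)] := by
  obtain ⟨h1, h2⟩ := div3 b 2 (by norm_num)
  simp only [chF, h1, h2]
  rw [if_neg (by omega), if_neg (by simp), if_neg (by omega), if_pos hb, if_pos trivial,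
    if_neg (by norm_num), if_neg (by norm_num)]

theorem ch_varo (W g K H : ℕ) (cs : List Cl) (b i : ℕ) (hi : i < 3) (hb : b < W * g)
    (hH : 1 + 3 * b + i < H) (j : ℕ) (hj : j ≠ b / g) (a : List Bool) :
    chF W g cs K H (1 + 3 * b + i) (true, j, a) = [(true, j, a)] := by
  obtain ⟨h1, h2⟩ := div3 b i hi
  simp only [chF, h1, h2]
  rw [if_neg (by omega), if_neg (by simp), if_neg (by omega), if_pos hb, if_neg hj]

theorem ch_cl0 (W g K H : ℕ) (cs : List Cl) (i : ℕ) (hi : i < cs.length)
    (hH : 1 + 3 * (W * g + i) < H) (j : ℕ) (a : List Bool) :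
    chF W g cs K H (1 + 3 * (W * g + i)) (true, j, a) =
      litSide g j a cs[i].1 ++ litSide g j a cs[i].2.1 ++ litSide g j a cs[i].2.2 ++
        [(true, j, a)] := by
  obtain ⟨h1, h2⟩ := div3 (W * g + i) 0 (by norm_num)
  rw [Nat.add_zero] at h1 h2
  simp only [chF, h1, h2]
  rw [if_neg (by omega), if_neg (by simp), if_neg (by omega), if_neg (by omega), if_pos trivial,
    Nat.add_sub_cancel_left, List.getD_eq_getElem _ _ hi]

theorem ch_cl1 (W g K H : ℕ) (cs : List Cl) (i t : ℕ) (ht : 0 < t) (ht3 : t < 3)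
    (hH : 1 + 3 * (W * g + i) + t < H) (j : ℕ) (a : List Bool) :
    chF W g cs K H (1 + 3 * (W * g + i) + t) (true, j, a) = [(true, j, a)] := by
  obtain ⟨h1, h2⟩ := div3 (W * g + i) t ht3
  simp only [chF, h1, h2]
  rw [if_neg (by omega), if_neg (by simp), if_neg (by omega), if_neg (by omega),
    if_neg (by omega)]

/-- the block of a variable -/
theorem mainBC (hD : S_DEP) : S_BC := by
  classical
  intro W g K H cs p data A hg hH hun hA hNH lab b hb hSt
  obtain ⟨hmain, hcard⟩ := hSt
  have hj0 : b / g < W := (Nat.div_lt_iff_lt_mul hg).2 hb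
  have hH3 : 1 + 3 * b + 3 ≤ H := by
    have : b + 1 ≤ W * g := hb
    omega
  -- the choice vertices
  obtain ⟨v, hv, hvd, hvx⟩ := hmain (b / g) hj0
  obtain ⟨u0, hp0, hd0, hx0, hc0⟩ := next hD hun hv hvd (by omega) hvx
    (y := (true, b / g, lab (b / g) ++ [false])) (by
      rw [ch_var0 W g K H cs b hb (by omega)]; simp)
  obtain ⟨u1, hp1, hd1, hx1, hc1⟩ := next hD hun hv hvd (by omega) hvx
    (y := (true, b / g, lab (b / g) ++ [true])) (by
      rw [ch_var0 W g K H cs b hb (by omega)]; simp)
  have hu01 : u0 ≠ u1 := by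
    rintro rfl
    rw [hx0] at hx1
    simp at hx1
  -- the sides of a burning choice vertex
  have side : ∀ u ∈ Brn p A, dep p u = 1 + 3 * b + 1 → ∀ a, data u = (true, b / g, a) →
      ∃ h x, h ∈ A ∧ dep p h = 1 + 3 * b + 2 ∧ data h = (false, 1, []) ∧ par p h = u ∧
        x ∈ A ∧ ((dep p x = 1 + 3 * b + 2 ∧ data x = (false, 2, []) ∧ par p x = u) ∨
          (dep p x = 1 + 3 * b + 3 ∧ data x = (false, 1, []) ∧ par p (par p x) = u)) := by
    intro u hu hud a hua
    obtain ⟨h, h1, h2, h3, h4⟩ := next hD hun hu hud (by omega) hua (y := (false, 1, [])) (by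
      rw [ch_var1 W g K H cs b hb (by omega)]; simp)
    have hh : h ∈ A := by
      rcases h4 with h4 | h4
      · exact h4
      · exact absurd h3 (hNH h h4 (by omega))
    obtain ⟨s, s1, s2, s3, s4⟩ := next hD hun hu hud (by omega) hua (y := (false, 2, [])) (by
      rw [ch_var1 W g K H cs b hb (by omega)]; simp)
    rcases s4 with s4 | s4
    · exact ⟨h, s, hh, by omega, h3, h1, s4, Or.inl ⟨by omega, s3, s1⟩⟩
    · obtain ⟨x, x1, x2, x3, x4⟩ := next hD hun s4 s2 (by omega) s3 (y := (false, 1, [])) (by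
        rw [ch_side2 W g K H cs _ 2 (by omega) le_rfl]; simp)
      have hx : x ∈ A := by
        rcases x4 with x4 | x4
        · exact x4
        · exact absurd x3 (hNH x x4 (by omega))
      exact ⟨h, x, hh, by omega, h3, h1, hx, Or.inr ⟨by omega, x3, by rw [x1, s1]⟩⟩
  -- the conclusion, when `w` is protected and `u` burns
  have fin : ∀ u w β β', u ∈ Brn p A → dep p u = 1 + 3 * b + 1 →
      data u = (true, b / g, lab (b / g) ++ [β]) → w ∈ A → dep p w = 1 + 3 * b + 1 →
      data w = (true, b / g, lab (b / g) ++ [β']) →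
      ∃ β, St p data A W (Function.update lab (b / g) (lab (b / g) ++ [β])) (b + 1) := by
    intro u w β β' hu hud hua hw hwd hwa
    obtain ⟨h, x, hh, hhd, hha, _, hx, hx'⟩ := side u hu hud _ hua
    have hwh : w ≠ h := by rintro rfl; omega
    have hwx : w ≠ x := by
      rintro rfl
      rcases hx' with hx' | hx'
      · omega
      · omega
    have hhx : h ≠ x := by
      rintro rfl
      rcases hx' with hx' | hx'
      · rw [hha] at hx'; simp at hx'
      · omega
    have hF : ({w, h, x} : Finset ℕ).card = 3 := by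
      rw [Finset.card_insert_of_notMem, Finset.card_insert_of_notMem, Finset.card_singleton]
      · simpa using hhx
      · simp [hwh, hwx]
    have hxd : 1 + 3 * b < dep p x ∧ dep p x ≤ 1 + 3 * b + 3 := by
      rcases hx' with hx' | hx' <;> omega
    obtain ⟨_, hc⟩ := cnt hA (1 + 3 * b) 3 hcard {w, h, x} (by
      intro y hy
      simp only [Finset.mem_insert, Finset.mem_singleton] at hy
      rcases hy with rfl | rfl | rfl
      · exact ⟨hw, by omega, by omega⟩
      · exact ⟨hh, by omega, by omega⟩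
      · exact ⟨hx, hxd.1, hxd.2⟩)
    obtain ⟨hc1, hc2⟩ := hc hF
    -- the data of the protected vertices
    have hAd : ∀ y ∈ A, 1 + 3 * b < dep p y → dep p y ≤ 1 + 3 * b + 3 →
        ∀ j a, data y = (true, j, a) → j = b / g ∧ dep p y = 1 + 3 * b + 1 := by
      intro y hy h1 h2 j a hya
      have := hc1 y hy h1 h2
      simp only [Finset.mem_insert, Finset.mem_singleton] at this
      rcases this with rfl | rfl | rfl
      · rw [hwa] at hya
        simp only [Prod.mk.injEq, true_and] at hya
        exact ⟨hya.1.symm, hwd⟩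
      · rw [hha] at hya
        simp at hya
      · exfalso
        rcases hx' with hx' | hx'
        · rw [hx'.2.1] at hya; simp at hya
        · rw [hx'.2.1] at hya; simp at hya
    refine ⟨β, ?_, by
      have e : 1 + 3 * (b + 1) = 1 + 3 * b + 3 := by ring
      rw [e]; exact hc2⟩
    intro j hj
    have e : 1 + 3 * (b + 1) = 1 + 3 * b + 3 := by ring
    rw [e]
    by_cases hjb : j = b / g
    · subst hjb
      rw [Function.update_self]
      obtain ⟨m1, hm1, _, hm1d, hm1a⟩ := surv hD hun hu hud (by omega) hua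
        (y := (true, b / g, lab (b / g) ++ [β])) (by
          rw [ch_var1 W g K H cs b hb (by omega)]; simp) (by
          intro y hy hyd hya
          have := (hAd y hy (by omega) (by omega) _ _ hya).2
          omega)
      obtain ⟨m2, hm2, _, hm2d, hm2a⟩ := surv hD hun hm1 hm1d (by omega) hm1a
        (y := (true, b / g, lab (b / g) ++ [β])) (by
          rw [ch_var2 W g K H cs b hb (by omega)]; simp) (by
          intro y hy hyd hya
          have := (hAd y hy (by omega) (by omega) _ _ hya).2
          omega)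
      exact ⟨m2, hm2, by omega, hm2a⟩
    · rw [Function.update_of_ne hjb]
      obtain ⟨m0, hm0, hm0d, hm0a⟩ := hmain j hj
      obtain ⟨m1, hm1, _, hm1d, hm1a⟩ := surv hD hun hm0 hm0d (by omega) hm0a
        (y := (true, j, lab j)) (by
          have := ch_varo W g K H cs b 0 (by norm_num) hb (by omega) j hjb (lab j)
          rw [Nat.add_zero] at this
          rw [this]; simp) (by
          intro y hy hyd hya
          exact hjb (hAd y hy (by omega) (by omega) _ _ hya).1)
      obtain ⟨m2, hm2, _, hm2d, hm2a⟩ := surv hD hun hm1 hm1d (by omega) hm1a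
        (y := (true, j, lab j)) (by
          rw [ch_varo W g K H cs b 1 (by norm_num) hb (by omega) j hjb (lab j)]; simp) (by
          intro y hy hyd hya
          exact hjb (hAd y hy (by omega) (by omega) _ _ hya).1)
      obtain ⟨m3, hm3, _, hm3d, hm3a⟩ := surv hD hun hm2 hm2d (by omega) hm2a
        (y := (true, j, lab j)) (by
          rw [ch_varo W g K H cs b 2 (by norm_num) hb (by omega) j hjb (lab j)]; simp) (by
          intro y hy hyd hya
          exact hjb (hAd y hy (by omega) (by omega) _ _ hya).1)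
      exact ⟨m3, hm3, by omega, hm3a⟩
  rcases hc0 with hc0 | hc0 <;> rcases hc1 with hc1 | hc1
  · -- both protected
    exfalso
    have := (cnt hA (1 + 3 * b) 1 hcard {u0, u1} (by
      intro y hy
      simp only [Finset.mem_insert, Finset.mem_singleton] at hy
      rcases hy with rfl | rfl
      · exact ⟨hc0, by omega, by omega⟩
      · exact ⟨hc1, by omega, by omega⟩)).1
    rw [Finset.card_pair hu01] at this
    omega
  · exact fin u1 u0 _ _ hc1 hd1 hx1 hc0 hd0 hx0
  · exact fin u0 u1 _ _ hc0 hd0 hx0 hc1 hd1 hx1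
  · -- none protected
    exfalso
    obtain ⟨h0, x0, a1, a2, a3, a4, a5, a6⟩ := side u0 hc0 hd0 _ hx0
    obtain ⟨h1, x1, b1, b2, b3, b4, b5, b6⟩ := side u1 hc1 hd1 _ hx1
    have n1 : h0 ≠ h1 := by rintro rfl; exact hu01 (a4.symm.trans b4)
    have n2 : x0 ≠ x1 := by
      rintro rfl
      rcases a6 with a6 | a6 <;> rcases b6 with b6 | b6
      · exact hu01 (a6.2.2.symm.trans b6.2.2)
      · omega
      · omega
      · exact hu01 (a6.2.2.symm.trans b6.2.2)
    have n3 : h0 ≠ x0 := by
      rintro rfl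
      rcases a6 with a6 | a6
      · rw [a3] at a6; simp at a6
      · omega
    have n4 : h0 ≠ x1 := by
      rintro rfl
      rcases b6 with b6 | b6
      · rw [a3] at b6; simp at b6
      · omega
    have n5 : h1 ≠ x0 := by
      rintro rfl
      rcases a6 with a6 | a6
      · rw [b3] at a6; simp at a6
      · omega
    have n6 : h1 ≠ x1 := by
      rintro rfl
      rcases b6 with b6 | b6
      · rw [b3] at b6; simp at b6
      · omega
    have hF : ({h0, h1, x0, x1} : Finset ℕ).card = 4 := by
      rw [Finset.card_insert_of_notMem, Finset.card_insert_of_notMem,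
        Finset.card_insert_of_notMem, Finset.card_singleton]
      · simpa using n2
      · simp [n5, n6]
      · simp [n1, n3, n4]
    have := (cnt hA (1 + 3 * b) 3 hcard {h0, h1, x0, x1} (by
      intro y hy
      simp only [Finset.mem_insert, Finset.mem_singleton] at hy
      rcases hy with rfl | rfl | rfl | rfl
      · exact ⟨a1, by omega, by omega⟩
      · exact ⟨b1, by omega, by omega⟩
      · refine ⟨a5, ?_⟩
        rcases a6 with a6 | a6 <;> omega
      · refine ⟨b5, ?_⟩
        rcases b6 with b6 | b6 <;> omega)).1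
    omega

end Helper85.FF.BC
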