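import Pool.Agent.Helper85.FF.BC

/-!
# Firefighter on trees, part BL: the blocks of the clauses
-/

set_option autoImplicit false
set_option linter.unusedSectionVars false

namespace Helper85.FF.BL

open Pool.FF Pool.FF.BH Helper85.FF.BC

/-- the block of a clause -/
theorem mainBL (hD : S_DEP) : S_BL := by
  classical
  intro W g K H cs p data A hg hH hcs hun hA hNH lab i hi hSt
  obtain ⟨hmain, hcard⟩ := hSt
  set d := 1 + 3 * (W * g + i) with hd
  have hH3 : d + 3 ≤ H := by omega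
  have hcl := hcs cs[i] (List.getElem_mem hi)
  have htr : ∀ l : Lit, l.1 < W * g → l.1 / g < W := fun l hl => (Nat.div_lt_iff_lt_mul hg).2 hl
  -- the main vertices and their children
  have hk : ∀ j, ∃ v k1 k2 k3 k4, j < W → (dep p v = d ∧ data v = (true, j, lab j) ∧
      (k1 ++ k2 ++ k3 ++ k4).Nodup ∧
      (∀ u ∈ k1 ++ k2 ++ k3 ++ k4, par p u = v ∧ dep p u = d + 1 ∧ (u ∈ A ∨ u ∈ Brn p A)) ∧
      List.map data k1 = litSide g j (lab j) cs[i].1 ∧
      List.map data k2 = litSide g j (lab j) cs[i].2.1 ∧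
      List.map data k3 = litSide g j (lab j) cs[i].2.2) := by
    intro j
    by_cases hj : j < W
    · obtain ⟨v, hv, hvd, hvx⟩ := hmain j hj
      obtain ⟨ks, hnd, h1, h2⟩ := kids hD hun (mem_Brn.1 hv).1 (by omega)
      rw [hvd, hvx, hd, ch_cl0 W g K H cs i hi (by omega)] at h2
      obtain ⟨k123, k4, rfl, h3, _⟩ := List.map_eq_append_iff.1 h2
      obtain ⟨k12, k3, rfl, h5, h6⟩ := List.map_eq_append_iff.1 h3
      obtain ⟨k1, k2, rfl, h7, h8⟩ := List.map_eq_append_iff.1 h5
      refine ⟨v, k1, k2, k3, k4, fun _ => ⟨hvd, hvx, hnd, ?_, h7, h8, h6⟩⟩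
      intro u hu
      obtain ⟨u1, u2, u3⟩ := h1 u hu
      refine ⟨u2, by omega, ?_⟩
      by_cases huA : u ∈ A
      · exact Or.inl huA
      · exact Or.inr (child_mem_Brn hv u1 u2 huA)
    · exact ⟨0, [], [], [], [], fun h => absurd h hj⟩
  choose v k1 k2 k3 k4 hk using hk
  -- a literal gives a side vertex
  have hlit : ∀ (l : Lit) (k : List ℕ), List.map data k = litSide g (l.1 / g) (lab (l.1 / g)) l →
      ∃ s ∈ k, (litTrue g lab l ∧ data s = (false, 3, [])) ∨
        (¬ litTrue g lab l ∧ data s = (false, 2, [])) := by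
    intro l k hlk
    unfold litSide at hlk
    rw [if_pos rfl] at hlk
    obtain ⟨s, k', rfl, hs, _⟩ := List.map_eq_cons_iff.1 hlk
    refine ⟨s, List.mem_cons_self, ?_⟩
    by_cases h : (lab (l.1 / g)).getD (l.1 % g) false = l.2
    · rw [if_pos h] at hs
      exact Or.inl ⟨h, hs⟩
    · rw [if_neg h] at hs
      exact Or.inr ⟨h, hs⟩
  -- a side vertex gives a protected vertex
  have hside2 : ∀ t ≤ 1, ∀ s, (s ∈ A ∨ s ∈ Brn p A) → dep p s = d + 1 + t →
      data s = (false, 2, []) →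
      ∃ x e r, x ∈ A ∧ e ≤ 1 ∧ dep p x = d + 1 + t + e ∧ (par p)^[e] x = s ∧
        data x = (false, r, []) := by
    intro t ht s hs hsd hsx
    rcases hs with hs | hs
    · exact ⟨s, 0, 2, hs, by norm_num, by omega, rfl, hsx⟩
    · obtain ⟨x, x1, x2, x3, x4⟩ := next hD hun hs hsd (by omega) hsx (y := (false, 1, [])) (by
        rw [ch_side2 W g K H cs _ 2 (by omega) le_rfl]; simp)
      rcases x4 with x4 | x4
      · exact ⟨x, 1, 1, x4, le_rfl, by omega, x1, x3⟩
      · exact absurd x3 (hNH x x4 (by omega))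
  have hside3 : ∀ s, (s ∈ A ∨ s ∈ Brn p A) → dep p s = d + 1 → data s = (false, 3, []) →
      ∃ x e r, x ∈ A ∧ e ≤ 2 ∧ dep p x = d + 1 + e ∧ (par p)^[e] x = s ∧
        data x = (false, r, []) := by
    intro s hs hsd hsx
    rcases hs with hs | hs
    · exact ⟨s, 0, 3, hs, by norm_num, by omega, rfl, hsx⟩
    · obtain ⟨y, y1, y2, y3, y4⟩ := next hD hun hs hsd (by omega) hsx (y := (false, 2, [])) (by
        rw [ch_side2 W g K H cs _ 3 (by omega) (by norm_num)]; simp)
      obtain ⟨x, e, r, hx, he, hxd, hxy, hxx⟩ := hside2 1 le_rfl y y4 (by omega) y3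
      refine ⟨x, e + 1, r, hx, by omega, by omega, ?_, hxx⟩
      rw [Function.iterate_succ_apply', hxy, y1]
  -- a literal gives a protected vertex below a side vertex
  have hlx : ∀ (l : Lit) (k : List ℕ), l.1 < W * g →
      List.map data k = litSide g (l.1 / g) (lab (l.1 / g)) l →
      (∀ u ∈ k, u ∈ k1 (l.1 / g) ++ k2 (l.1 / g) ++ k3 (l.1 / g) ++ k4 (l.1 / g)) →
      ∃ s ∈ k, ∃ x e r, x ∈ A ∧ e ≤ 2 ∧ (¬ litTrue g lab l → e ≤ 1) ∧ dep p x = d + 1 + e ∧
        (par p)^[e] x = s ∧ data x = (false, r, []) := by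
    intro l k hl hlk hsub
    obtain ⟨_, _, _, h4, _⟩ := hk (l.1 / g) (htr l hl)
    obtain ⟨s, hs, h⟩ := hlit l k hlk
    obtain ⟨_, hsd, hsA⟩ := h4 s (hsub s hs)
    rcases h with ⟨h1, h2⟩ | ⟨h1, h2⟩
    · obtain ⟨x, e, r, q1, q2, q3, q4, q5⟩ := hside3 s hsA hsd h2
      exact ⟨s, hs, x, e, r, q1, q2, fun h => absurd h1 h, q3, q4, q5⟩
    · obtain ⟨x, e, r, q1, q2, q3, q4, q5⟩ := hside2 0 (by norm_num) s hsA (by omega) h2
      exact ⟨s, hs, x, e, r, q1, by omega, fun _ => q2, by omega, q4, q5⟩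
  obtain ⟨hl1, hl2, hl3⟩ := hcl
  have K1 := hk (cs[i].1.1 / g) (htr _ hl1)
  have K2 := hk (cs[i].2.1.1 / g) (htr _ hl2)
  have K3 := hk (cs[i].2.2.1 / g) (htr _ hl3)
  obtain ⟨s1, hs1, x1, e1, r1, a1, a2, a3, a4, a5, a6⟩ := hlx cs[i].1 (k1 (cs[i].1.1 / g)) hl1
    K1.2.2.2.2.1 (by intro u hu; simp [hu])
  obtain ⟨s2, hs2, x2, e2, r2, b1, b2, b3, b4, b5, b6⟩ := hlx cs[i].2.1 (k2 (cs[i].2.1.1 / g)) hl2
    K2.2.2.2.2.2.1 (by intro u hu; simp [hu])
  obtain ⟨s3, hs3, x3, e3, r3, c1, c2, c3, c4, c5, c6⟩ := hlx cs[i].2.2 (k3 (cs[i].2.2.1 / g)) hl3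
    K3.2.2.2.2.2.2 (by intro u hu; simp [hu])
  -- distinct tracks have distinct children
  have hpar : ∀ j j', j < W → j' < W → ∀ u, u ∈ k1 j ++ k2 j ++ k3 j ++ k4 j →
      u ∈ k1 j' ++ k2 j' ++ k3 j' ++ k4 j' → j = j' := by
    intro j j' hj hj' u hu hu'
    have h1 := ((hk j hj).2.2.2.1 u hu).1
    have h2 := ((hk j' hj').2.2.2.1 u hu').1
    have h3 := (hk j hj).2.1
    have h4 := (hk j' hj').2.1
    rw [← h1] at h3
    rw [← h2, h3] at h4
    simp only [Prod.mk.injEq, true_and] at h4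
    exact h4.1
  have n12 : s1 ≠ s2 := by
    rintro rfl
    have hj := hpar _ _ (htr _ hl1) (htr _ hl2) s1 (by simp [hs1]) (by simp [hs2])
    rw [← hj] at hs2
    have hnd := K1.2.2.1
    simp only [List.nodup_append, List.mem_append] at hnd
    exact hnd.1.1.2.2 s1 hs1 s1 hs2 rfl
  have n13 : s1 ≠ s3 := by
    rintro rfl
    have hj := hpar _ _ (htr _ hl1) (htr _ hl3) s1 (by simp [hs1]) (by simp [hs3])
    rw [← hj] at hs3
    have hnd := K1.2.2.1
    simp only [List.nodup_append, List.mem_append] at hnd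
    exact hnd.1.2.2 s1 (Or.inl hs1) s1 hs3 rfl
  have n23 : s2 ≠ s3 := by
    rintro rfl
    have hj := hpar _ _ (htr _ hl2) (htr _ hl3) s2 (by simp [hs2]) (by simp [hs3])
    rw [← hj] at hs3
    have hnd := K2.2.2.1
    simp only [List.nodup_append, List.mem_append] at hnd
    exact hnd.1.2.2 s2 (Or.inr hs2) s2 hs3 rfl
  have m12 : x1 ≠ x2 := by
    rintro rfl
    have : e1 = e2 := by omega
    subst this
    exact n12 (a5.symm.trans b5)
  have m13 : x1 ≠ x3 := by
    rintro rfl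
    have : e1 = e3 := by omega
    subst this
    exact n13 (a5.symm.trans c5)
  have m23 : x2 ≠ x3 := by
    rintro rfl
    have : e2 = e3 := by omega
    subst this
    exact n23 (b5.symm.trans c5)
  have hF : ({x1, x2, x3} : Finset ℕ).card = 3 := by
    rw [Finset.card_insert_of_notMem, Finset.card_insert_of_notMem, Finset.card_singleton]
    · simpa using m23
    · simp [m12, m13]
  refine ⟨?_, ?_⟩
  · -- some literal is true
    by_contra hcon
    push Not at hcon
    obtain ⟨t1, t2, t3⟩ := hcon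
    have := a3 t1
    have := b3 t2
    have := c3 t3
    have := (cnt hA d 2 hcard {x1, x2, x3} (by
      intro y hy
      simp only [Finset.mem_insert, Finset.mem_singleton] at hy
      rcases hy with rfl | rfl | rfl
      · exact ⟨a1, by omega, by omega⟩
      · exact ⟨b1, by omega, by omega⟩
      · exact ⟨c1, by omega, by omega⟩)).1
    omega
  · obtain ⟨_, hc⟩ := cnt hA d 3 hcard {x1, x2, x3} (by
      intro y hy
      simp only [Finset.mem_insert, Finset.mem_singleton] at hy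
      rcases hy with rfl | rfl | rfl
      · exact ⟨a1, by omega, by omega⟩
      · exact ⟨b1, by omega, by omega⟩
      · exact ⟨c1, by omega, by omega⟩)
    obtain ⟨hc1, hc2⟩ := hc hF
    have hAd : ∀ y ∈ A, d < dep p y → dep p y ≤ d + 3 → ∀ j a, data y ≠ (true, j, a) := by
      intro y hy h1 h2 j a hya
      have := hc1 y hy h1 h2
      simp only [Finset.mem_insert, Finset.mem_singleton] at this
      rcases this with rfl | rfl | rfl
      · rw [a6] at hya; simp at hya
      · rw [b6] at hya; simp at hya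
      · rw [c6] at hya; simp at hya
    have e : 1 + 3 * (W * g + (i + 1)) = d + 3 := by rw [hd]; ring
    refine ⟨?_, by rw [e]; exact hc2⟩
    intro j hj
    rw [e]
    obtain ⟨m0, hm0, hm0d, hm0a⟩ := hmain j hj
    obtain ⟨m1, hm1, _, hm1d, hm1a⟩ := surv hD hun hm0 hm0d (by omega) hm0a
      (y := (true, j, lab j)) (by
        rw [hd, ch_cl0 W g K H cs i hi (by omega)]; simp) (by
        intro y hy hyd
        exact hAd y hy (by omega) (by omega) _ _)
    obtain ⟨m2, hm2, _, hm2d, hm2a⟩ := surv hD hun hm1 hm1d (by omega) hm1a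
      (y := (true, j, lab j)) (by
        rw [hd, ch_cl1 W g K H cs i 1 (by norm_num) (by norm_num) (by omega)]; simp) (by
        intro y hy hyd
        exact hAd y hy (by omega) (by omega) _ _)
    obtain ⟨m3, hm3, _, hm3d, hm3a⟩ := surv hD hun hm2 hm2d (by omega) hm2a
      (y := (true, j, lab j)) (by
        show _ ∈ chF W g cs K H (d + 2) _
        rw [hd, ch_cl1 W g K H cs i 2 (by norm_num) (by norm_num) (by omega)]; simp) (by
        intro y hy hyd
        exact hAd y hy (by omega) (by omega) _ _)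
    exact ⟨m3, hm3, by omega, hm3a⟩

end Helper85.FF.BL
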