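import Pool.Agent.Helper86.FF.Spec

/-!
# Firefighter on trees, part DPC: correctness of the dynamic program
-/

set_option autoImplicit false
set_option linter.unusedSectionVars false
set_option linter.deprecated false

namespace Helper85.FF.DPC

open Pool.FF

open scoped Classical in
/-- the vertices with an ancestor in `A` -/
noncomputable def Sv (p : List ℕ) (A : Finset ℕ) : Finset ℕ :=
  (Finset.range (p.length + 1)).filter (fun v => ∃ j, (par p)^[j] v ∈ A)

theorem Brn_Sv (p : List ℕ) (A : Finset ℕ) : (Brn p A).card + (Sv p A).card = p.length + 1 := by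
  classical
  have h := Finset.card_filter_add_card_filter_not (s := Finset.range (p.length + 1))
    (fun v => ∀ j, (par p)^[j] v ∉ A)
  rw [Finset.card_range] at h
  rw [← h]
  have e1 : Brn p A = (Finset.range (p.length + 1)).filter (fun v => ∀ j, (par p)^[j] v ∉ A) := by
    ext v
    unfold Brn
    simp only [Finset.mem_filter]
  have e2 : Sv p A = (Finset.range (p.length + 1)).filter
      (fun v => ¬ ∀ j, (par p)^[j] v ∉ A) := by
    ext v
    unfold Sv
    simp only [Finset.mem_filter, not_forall, not_not]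
  rw [e1, e2]

open scoped Classical in
/-- the mask of the depths of `A` -/
noncomputable def msk (p : List ℕ) (ℓ : ℕ) (A : Finset ℕ) : List Bool :=
  (List.range ℓ).map (fun j => decide (∃ a ∈ A, dep p a = j + 1))

/-- the table `R` represents the set `U` -/
def Rep (p : List ℕ) (ℓ : ℕ) (R : Tab) (U : Set ℕ) : Prop :=
  ∀ m x, (m, x) ∈ R ↔ ∃ A : Finset ℕ, (∀ a ∈ A, a ∈ U) ∧ Lev p ℓ A ∧ msk p ℓ A = m ∧
    (Sv p A).card = x

/-! ### masks -/

theorem trunc_eq {α : Type} (u : List Unit) (l : List α) (h : l.length ≤ u.length) :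
    trunc u l = l := by
  unfold trunc
  exact List.map_fst_zip h

theorem masks_aux (ℓ : ℕ) : ∀ j, j ≤ ℓ →
    ((List.range j).foldl (fun acc _ => trunc (List.replicate (2 ^ ℓ) ())
      (acc.flatMap (fun m => [false :: m, true :: m]))) ([[]] : List (List Bool))).length = 2 ^ j ∧
    ∀ m : List Bool, m.length = j →
      m ∈ (List.range j).foldl (fun acc _ => trunc (List.replicate (2 ^ ℓ) ())
        (acc.flatMap (fun m => [false :: m, true :: m]))) ([[]] : List (List Bool)) := by
  intro j
  induction j with
  | zero =>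
    intro _
    refine ⟨by simp, ?_⟩
    intro m hm
    rw [List.length_eq_zero_iff] at hm
    simp [hm]
  | succ j ih =>
    intro hj
    obtain ⟨h1, h2⟩ := ih (by omega)
    rw [List.range_succ, List.foldl_append, List.foldl_cons, List.foldl_nil]
    generalize (List.range j).foldl (fun acc _ => trunc (List.replicate (2 ^ ℓ) ())
      (acc.flatMap (fun m => [false :: m, true :: m]))) ([[]] : List (List Bool)) = acc at h1 h2
    have hl : (acc.flatMap (fun m => [false :: m, true :: m])).length = 2 ^ (j + 1) := by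
      rw [List.length_flatMap]
      simp [h1]
      ring
    have ht : trunc (List.replicate (2 ^ ℓ) ()) (acc.flatMap (fun m => [false :: m, true :: m])) =
        acc.flatMap (fun m => [false :: m, true :: m]) := by
      apply trunc_eq
      rw [hl, List.length_replicate]
      exact Nat.pow_le_pow_right (by norm_num) hj
    rw [ht]
    refine ⟨hl, ?_⟩
    intro m hm
    cases m with
    | nil => simp at hm
    | cons b m =>
      rw [List.mem_flatMap]
      refine ⟨m, h2 m (by simpa using hm), ?_⟩
      cases b <;> simp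

theorem mem_masks (ℓ : ℕ) (m : List Bool) (hm : m.length = ℓ) :
    m ∈ masks ℓ (List.replicate (2 ^ ℓ) ()) :=
  (masks_aux ℓ ℓ le_rfl).2 m hm

theorem mem_cand (p : List ℕ) (ms : List (List Bool)) (m : List Bool) (x : ℕ) :
    (m, x) ∈ cand p ms ↔ m ∈ ms ∧ x ≤ p.length := by
  unfold cand
  rw [List.mem_flatMap]
  constructor
  · rintro ⟨m', hm', h⟩
    rw [List.mem_map] at h
    obtain ⟨x', hx', h⟩ := h
    rw [Prod.mk.injEq] at h
    obtain ⟨rfl, rfl⟩ := h
    rw [List.mem_range] at hx'
    exact ⟨hm', by omega⟩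
  · rintro ⟨h1, h2⟩
    exact ⟨m, h1, List.mem_map.2 ⟨x, List.mem_range.2 (by omega), rfl⟩⟩

theorem length_msk (p : List ℕ) (ℓ : ℕ) (A : Finset ℕ) : (msk p ℓ A).length = ℓ := by
  simp [msk]

theorem orM_msk (p : List ℕ) (ℓ : ℕ) (A A' : Finset ℕ) :
    Pool.FF.orM (msk p ℓ A) (msk p ℓ A') = msk p ℓ (A ∪ A') := by
  classical
  unfold Pool.FF.orM msk
  rw [List.zip_map', List.map_map]
  apply List.map_congr_left
  intro j _
  simp only [Function.comp]
  rw [← Bool.decide_or]
  apply decide_eq_decide.2
  constructor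
  · rintro (⟨a, ha, h⟩ | ⟨a, ha, h⟩)
    · exact ⟨a, Finset.mem_union_left _ ha, h⟩
    · exact ⟨a, Finset.mem_union_right _ ha, h⟩
  · rintro ⟨a, ha, h⟩
    rcases Finset.mem_union.1 ha with ha | ha
    · exact Or.inl ⟨a, ha, h⟩
    · exact Or.inr ⟨a, ha, h⟩

theorem disj_msk (p : List ℕ) (ℓ : ℕ) (A A' : Finset ℕ) :
    disj (msk p ℓ A) (msk p ℓ A') = true ↔
      ∀ a ∈ A, ∀ a' ∈ A', 1 ≤ dep p a → dep p a ≤ ℓ → dep p a ≠ dep p a' := by
  classical
  unfold disj msk
  rw [List.zip_map', List.all_map, List.all_eq_true]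
  constructor
  · intro h a ha a' ha' h1 h2 he
    have := h (dep p a - 1) (List.mem_range.2 (by omega))
    simp only [Function.comp, Bool.not_eq_true', Bool.and_eq_false_iff, decide_eq_false_iff_not]
      at this
    rcases this with h3 | h3
    · exact h3 ⟨a, ha, by omega⟩
    · exact h3 ⟨a', ha', by omega⟩
  · intro h j hj
    rw [List.mem_range] at hj
    simp only [Function.comp, Bool.not_eq_true', Bool.and_eq_false_iff, decide_eq_false_iff_not]
    by_contra hc
    push Not at hc
    obtain ⟨⟨a, ha, h1⟩, ⟨a', ha', h2⟩⟩ := hc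
    exact h a ha a' ha' (by omega) (by omega) (by omega)

/-! ### ancestors -/

section

variable (p : List ℕ)

theorem par_zero : par p 0 = 0 := by simp [par]

theorem iter_zero (j : ℕ) : (par p)^[j] 0 = 0 :=
  Function.iterate_fixed (par_zero p) j

variable (hd : ∀ v, 1 ≤ v → v ≤ p.length → par p v < v ∧ dep p v = dep p (par p v) + 1)

include hd

theorem par_le (v : ℕ) (hv : v ≤ p.length) : par p v ≤ v := by
  rcases Nat.eq_zero_or_pos v with rfl | h
  · rw [par_zero]
  · exact (hd v h hv).1.le

theorem iter_le (j : ℕ) : ∀ v, v ≤ p.length → (par p)^[j] v ≤ v := by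
  induction j with
  | zero => intro v _; simp
  | succ j ih =>
    intro v hv
    rw [Function.iterate_succ_apply]
    exact (ih _ ((par_le p hd v hv).trans hv)).trans (par_le p hd v hv)

theorem iter_lt (j : ℕ) (hj : 0 < j) (v : ℕ) (hv1 : 1 ≤ v) (hv : v ≤ p.length) :
    (par p)^[j] v < v := by
  obtain ⟨j, rfl⟩ := Nat.exists_eq_succ_of_ne_zero hj.ne'
  rw [Function.iterate_succ_apply]
  have := (hd v hv1 hv).1
  exact lt_of_le_of_lt (iter_le p hd j _ (by omega)) this

theorem dep_pos (v : ℕ) (hv1 : 1 ≤ v) (hv : v ≤ p.length) : 1 ≤ dep p v := by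
  rw [(hd v hv1 hv).2]; omega

end

/-! ### the first ancestor which is at most `n - k` -/

/-- the first ancestor of `u` which is at most `n - k` -/
def rr (p : List ℕ) : ℕ → ℕ → ℕ
  | 0, u => u
  | k + 1, u => if rr p k u = p.length - k then par p (p.length - k) else rr p k u

section

variable (p : List ℕ)
variable (hd : ∀ v, 1 ≤ v → v ≤ p.length → par p v < v ∧ dep p v = dep p (par p v) + 1)

include hd

theorem rr_le (k : ℕ) : k ≤ p.length → ∀ u, u ≤ p.length → rr p k u ≤ p.length - k := by
  induction k with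
  | zero => intro _ u hu; simpa [rr] using hu
  | succ k ih =>
    intro hk u hu
    have h := ih (by omega) u hu
    unfold rr
    split_ifs with h1
    · have := (hd (p.length - k) (by omega) (by omega)).1
      omega
    · omega

theorem rr_anc (k : ℕ) : ∀ u, ∃ j, (par p)^[j] u = rr p k u := by
  induction k with
  | zero => intro u; exact ⟨0, rfl⟩
  | succ k ih =>
    intro u
    obtain ⟨j, hj⟩ := ih u
    unfold rr
    split_ifs with h1
    · exact ⟨j + 1, by rw [Function.iterate_succ_apply', hj, h1]⟩
    · exact ⟨j, hj⟩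

/-- the ancestors of `u` which are at most `n - k` are ancestors of `rr k u` -/
theorem rr_low (k : ℕ) : k ≤ p.length → ∀ u, u ≤ p.length → ∀ j, (par p)^[j] u ≤ p.length - k →
    ∃ j', (par p)^[j'] (rr p k u) = (par p)^[j] u := by
  induction k with
  | zero => intro _ u _ j _; exact ⟨j, rfl⟩
  | succ k ih =>
    intro hk u hu j hj
    obtain ⟨j', hj'⟩ := ih (by omega) u hu j (by omega)
    unfold rr
    split_ifs with h1
    · cases j' with
      | zero =>
        exfalso
        simp only [Function.iterate_zero, id] at hj'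
        omega
      | succ j' =>
        rw [h1, Function.iterate_succ_apply] at hj'
        exact ⟨j', hj'⟩
    · exact ⟨j', hj'⟩

theorem rr_self (k : ℕ) : k ≤ p.length → ∀ u, u ≤ p.length - k → rr p k u = u := by
  induction k with
  | zero => intro _ u _; rfl
  | succ k ih =>
    intro hk u hu
    have h := ih (by omega) u (by omega)
    unfold rr
    rw [h, if_neg (by omega)]

theorem rr_head (k : ℕ) (hk : k ≤ p.length) (u : ℕ) (hu : u ≤ p.length) :
    rr p k u = p.length - k ↔ ∃ j, (par p)^[j] u = p.length - k := by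
  constructor
  · intro h
    obtain ⟨j, hj⟩ := rr_anc p hd k u
    exact ⟨j, by rw [hj, h]⟩
  · rintro ⟨j, hj⟩
    obtain ⟨j', hj'⟩ := rr_low p hd k hk u hu j hj.le
    have h1 := rr_le p hd k hk u hu
    have h2 := iter_le p hd j' (rr p k u) (by omega)
    rw [hj', hj] at h2
    omega

theorem rr_high (k : ℕ) : k ≤ p.length → ∀ u, u ≤ p.length → ∀ j, p.length - k < (par p)^[j] u →
    rr p k u = rr p k ((par p)^[j] u) := by
  induction k with
  | zero =>
    intro _ u hu j hj
    have := iter_le p hd j u hu
    omega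
  | succ k ih =>
    intro hk u hu j hj
    have hle := iter_le p hd j u hu
    have key : rr p k u = rr p k ((par p)^[j] u) := by
      rcases lt_or_eq_of_le (show p.length - k ≤ (par p)^[j] u by omega) with h | h
      · exact ih (by omega) u hu j h
      · rw [← h]
        rw [(rr_head p hd k (by omega) u hu).2 ⟨j, h.symm⟩]
        exact (rr_self p hd k (by omega) _ le_rfl).symm
    unfold rr
    rw [key]

end

/-! ### the three steps -/

theorem Lev_subset {p : List ℕ} {ℓ : ℕ} {A B : Finset ℕ} (h : A ⊆ B) (hB : Lev p ℓ B) :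
    Lev p ℓ A :=
  ⟨fun a ha => hB.1 a (h ha), hB.2.1.mono (by exact_mod_cast h),
    fun a ha j hj hc => hB.2.2 a (h ha) j hj (h hc)⟩

theorem rep_init (p : List ℕ) (ℓ : ℕ) (U : Set ℕ) (hU : ∀ u ∈ U, u ∉ U) :
    Rep p ℓ [(unitM ℓ 0, 0)] U := by
  classical
  have hm : msk p ℓ ∅ = unitM ℓ 0 := by
    unfold msk unitM
    apply List.map_congr_left
    intro j _
    simp
  have hs : (Sv p ∅).card = 0 := by
    rw [Finset.card_eq_zero]
    unfold Sv
    simp
  intro m x
  rw [List.mem_singleton, Prod.mk.injEq]
  constructor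
  · rintro ⟨rfl, rfl⟩
    refine ⟨∅, by simp, ⟨by simp, by simp, by simp⟩, hm, hs⟩
  · rintro ⟨A, hA, _, h1, h2⟩
    have : A = ∅ := by
      rw [Finset.eq_empty_iff_forall_notMem]
      intro a ha
      exact hU a (hA a ha) (hA a ha)
    subst this
    exact ⟨by rw [← h1, hm], by rw [← h2, hs]⟩

theorem msk_single (p : List ℕ) (ℓ v : ℕ) : msk p ℓ {v} = unitM ℓ (dep p v) := by
  classical
  unfold msk unitM
  apply List.map_congr_left
  intro j _
  apply decide_eq_decide.2
  simp [eq_comm]

theorem rep_opt (p : List ℕ) (ℓ : ℕ)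
    (hd : ∀ v, 1 ≤ v → v ≤ p.length → par p v < v ∧ dep p v = dep p (par p v) + 1)
    (v : ℕ) (hv1 : 1 ≤ v) (hv : v ≤ p.length) (R : Tab) (T : Finset ℕ)
    (hT : ∀ u, u ∈ T ↔ u ≤ p.length ∧ ∃ j, (par p)^[j] u = v)
    (hR : Rep p ℓ R {u | u ∈ T ∧ u ≠ v}) :
    Rep p ℓ (optT ℓ (v, dep p v, T.card, R)) {u | u ∈ T} := by
  classical
  have hS : Sv p {v} = T := by
    ext u
    unfold Sv
    rw [hT]
    simp only [Finset.mem_filter, Finset.mem_range, Finset.mem_singleton]
    constructor
    · rintro ⟨h1, h2⟩; exact ⟨by omega, h2⟩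
    · rintro ⟨h1, h2⟩; exact ⟨by omega, h2⟩
  have hL : dep p v ≤ ℓ → Lev p ℓ {v} := by
    intro h
    refine ⟨?_, ?_, ?_⟩
    · intro a ha
      rw [Finset.mem_singleton] at ha
      subst ha
      exact ⟨hv1, hv, h⟩
    · simp
    · intro a ha j hj hc
      rw [Finset.mem_singleton] at ha hc
      subst ha
      have := iter_lt p hd j hj a hv1 hv
      omega
  have hvT : v ∈ T := (hT v).2 ⟨hv, 0, rfl⟩
  -- sets containing `v`
  have hA : ∀ A : Finset ℕ, (∀ a ∈ A, a ∈ T) → Lev p ℓ A → v ∈ A → A = {v} := by
    intro A hAT hLA hvA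
    ext a
    rw [Finset.mem_singleton]
    constructor
    · intro ha
      obtain ⟨_, j, hj⟩ := (hT a).1 (hAT a ha)
      rcases Nat.eq_zero_or_pos j with rfl | hj0
      · simpa using hj
      · exact absurd (hj ▸ hvA) (hLA.2.2 a ha j hj0)
    · rintro rfl; exact hvA
  intro m x
  unfold optT
  simp only
  split_ifs with hle
  · rw [List.mem_cons, Prod.mk.injEq, hR m x]
    constructor
    · rintro (⟨rfl, rfl⟩ | ⟨A, h1, h2, h3, h4⟩)
      · exact ⟨{v}, by simpa using hvT, hL hle, msk_single p ℓ v, by rw [hS]⟩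
      · exact ⟨A, fun a ha => (h1 a ha).1, h2, h3, h4⟩
    · rintro ⟨A, h1, h2, h3, h4⟩
      by_cases hvA : v ∈ A
      · left
        have := hA A h1 h2 hvA
        subst this
        exact ⟨by rw [← h3, msk_single], by rw [← h4, hS]⟩
      · right
        exact ⟨A, fun a ha => ⟨h1 a ha, fun h => hvA (h ▸ ha)⟩, h2, h3, h4⟩
  · rw [hR m x]
    constructor
    · rintro ⟨A, h1, h2, h3, h4⟩
      exact ⟨A, fun a ha => (h1 a ha).1, h2, h3, h4⟩
    · rintro ⟨A, h1, h2, h3, h4⟩
      refine ⟨A, fun a ha => ⟨h1 a ha, fun h => ?_⟩, h2, h3, h4⟩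
      have := (h2.1 a ha).2.2
      rw [h] at this
      exact hle this

theorem Sv_le (p : List ℕ) (ℓ : ℕ) (A : Finset ℕ) (hA : Lev p ℓ A) : (Sv p A).card ≤ p.length := by
  classical
  have h : Sv p A ⊆ (Finset.range (p.length + 1)).erase 0 := by
    intro u hu
    unfold Sv at hu
    rw [Finset.mem_filter] at hu
    rw [Finset.mem_erase]
    refine ⟨?_, hu.1⟩
    rintro rfl
    obtain ⟨j, hj⟩ := hu.2
    rw [iter_zero] at hj
    have := (hA.1 0 hj).1
    omega
  have := Finset.card_le_card h
  rw [Finset.card_erase_of_mem (by simp), Finset.card_range] at this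
  omega

theorem rep_merge (p : List ℕ) (ℓ : ℕ)
    (hd : ∀ v, 1 ≤ v → v ≤ p.length → par p v < v ∧ dep p v = dep p (par p v) + 1)
    (C R R' : Tab) (U U' : Set ℕ)
    (hC : ∀ m x, m.length = ℓ → x ≤ p.length → (m, x) ∈ C)
    (hU : ∀ w, w ≤ p.length → ∀ j j', (par p)^[j] w ∈ U → (par p)^[j'] w ∉ U')
    (hR : Rep p ℓ R U) (hR' : Rep p ℓ R' U') :
    Rep p ℓ (mergeT C R R') (U ∪ U') := by
  classical
  -- unions
  have hun : ∀ A A' : Finset ℕ, (∀ a ∈ A, a ∈ U) → (∀ a ∈ A', a ∈ U') → Lev p ℓ A → Lev p ℓ A' →
      (Sv p (A ∪ A')).card = (Sv p A).card + (Sv p A').card := by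
    intro A A' h1 h2 h3 h4
    rw [← Finset.card_union_of_disjoint]
    · congr 1
      ext w
      unfold Sv
      simp only [Finset.mem_union, Finset.mem_filter]
      constructor
      · rintro ⟨h, j, hj | hj⟩
        · exact Or.inl ⟨h, j, hj⟩
        · exact Or.inr ⟨h, j, hj⟩
      · rintro (⟨h, j, hj⟩ | ⟨h, j, hj⟩)
        · exact ⟨h, j, Or.inl hj⟩
        · exact ⟨h, j, Or.inr hj⟩
    · rw [Finset.disjoint_left]
      intro w hw hw'
      unfold Sv at hw hw'
      rw [Finset.mem_filter, Finset.mem_range] at hw hw'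
      obtain ⟨hw1, j, hj⟩ := hw
      obtain ⟨_, j', hj'⟩ := hw'
      exact hU w (by omega) j j' (h1 _ hj) (h2 _ hj')
  intro m x
  unfold mergeT
  rw [List.mem_filter, List.any_eq_true]
  constructor
  · rintro ⟨_, r, hr, h⟩
    rw [List.any_eq_true] at h
    obtain ⟨r', hr', h⟩ := h
    rw [Bool.and_eq_true, decide_eq_true_eq, Prod.mk.injEq] at h
    obtain ⟨hdis, rfl, rfl⟩ := h
    obtain ⟨A, hA1, hA2, hA3, hA4⟩ := (hR r.1 r.2).1 hr
    obtain ⟨A', hB1, hB2, hB3, hB4⟩ := (hR' r'.1 r'.2).1 hr'
    rw [← hA3, ← hB3, disj_msk] at hdis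
    refine ⟨A ∪ A', ?_, ⟨?_, ?_, ?_⟩, ?_, ?_⟩
    · intro a ha
      rcases Finset.mem_union.1 ha with ha | ha
      · exact Or.inl (hA1 a ha)
      · exact Or.inr (hB1 a ha)
    · intro a ha
      rcases Finset.mem_union.1 ha with ha | ha
      · exact hA2.1 a ha
      · exact hB2.1 a ha
    · intro a ha b hb hab
      rw [Finset.mem_coe, Finset.mem_union] at ha hb
      rcases ha with ha | ha <;> rcases hb with hb | hb
      · exact hA2.2.1 (Finset.mem_coe.2 ha) (Finset.mem_coe.2 hb) hab
      · exfalso
        obtain ⟨h1, h2, h3⟩ := hA2.1 a ha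
        exact hdis a ha b hb (dep_pos p hd a h1 h2) h3 hab
      · exfalso
        obtain ⟨h1, h2, h3⟩ := hA2.1 b hb
        exact hdis b hb a ha (dep_pos p hd b h1 h2) h3 hab.symm
      · exact hB2.2.1 (Finset.mem_coe.2 ha) (Finset.mem_coe.2 hb) hab
    · intro a ha j hj hc
      rcases Finset.mem_union.1 ha with ha | ha <;> rcases Finset.mem_union.1 hc with hc | hc
      · exact hA2.2.2 a ha j hj hc
      · exact hU a (hA2.1 a ha).2.1 0 j (hA1 a ha) (hB1 _ hc)
      · exact hU a (hB2.1 a ha).2.1 j 0 (hA1 _ hc) (hB1 a ha)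
      · exact hB2.2.2 a ha j hj hc
    · rw [← orM_msk, hA3, hB3]
    · rw [hun A A' hA1 hB1 hA2 hB2, hA4, hB4]
  · rintro ⟨B, hB1, hB2, hB3, hB4⟩
    have e : B.filter (fun b => b ∈ U) ∪ B.filter (fun b => b ∈ U') = B := by
      ext b
      simp only [Finset.mem_union, Finset.mem_filter]
      constructor
      · rintro (h | h) <;> exact h.1
      · intro h
        rcases hB1 b h with h' | h'
        · exact Or.inl ⟨h, h'⟩
        · exact Or.inr ⟨h, h'⟩
    have hL1 : Lev p ℓ (B.filter (fun b => b ∈ U)) := Lev_subset (Finset.filter_subset _ _) hB2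
    have hL2 : Lev p ℓ (B.filter (fun b => b ∈ U')) := Lev_subset (Finset.filter_subset _ _) hB2
    have hm1 : ∀ a ∈ B.filter (fun b => b ∈ U), a ∈ U := fun a ha => (Finset.mem_filter.1 ha).2
    have hm2 : ∀ a ∈ B.filter (fun b => b ∈ U'), a ∈ U' := fun a ha => (Finset.mem_filter.1 ha).2
    refine ⟨?_, ?_⟩
    · rw [← hB3, ← hB4]
      exact hC _ _ (length_msk p ℓ B) (Sv_le p ℓ B hB2)
    · refine ⟨(msk p ℓ (B.filter (fun b => b ∈ U)), (Sv p (B.filter (fun b => b ∈ U))).card),
        (hR _ _).2 ⟨_, hm1, hL1, rfl, rfl⟩, ?_⟩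
      rw [List.any_eq_true]
      refine ⟨(msk p ℓ (B.filter (fun b => b ∈ U')), (Sv p (B.filter (fun b => b ∈ U'))).card),
        (hR' _ _).2 ⟨_, hm2, hL2, rfl, rfl⟩, ?_⟩
      rw [Bool.and_eq_true, decide_eq_true_eq, Prod.mk.injEq]
      refine ⟨?_, ?_, ?_⟩
      · rw [disj_msk]
        intro a ha a' ha' _ _ he
        have h1 := Finset.mem_filter.1 ha
        have h2 := Finset.mem_filter.1 ha'
        have : a = a' := hB2.2.1 (Finset.mem_coe.2 h1.1) (Finset.mem_coe.2 h2.1) he
        subst this
        exact hU a (hB2.1 a h1.1).2.1 0 0 h1.2 h2.2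
      · rw [orM_msk, e, hB3]
      · show x = (Sv p (B.filter (fun b => b ∈ U))).card + (Sv p (B.filter (fun b => b ∈ U'))).card
        rw [← hun _ _ hm1 hm2 hL1 hL2, e, hB4]

/-! ### the invariant -/

/-- the vertices whose first ancestor at most `n - k` is `v` -/
def TT (p : List ℕ) (k v : ℕ) : Finset ℕ := (Finset.range (p.length + 1)).filter (fun u => rr p k u = v)

/-- the entry `e` is correct for the vertex `v` -/
def Cor (p : List ℕ) (ℓ k v : ℕ) (e : Ent) : Prop :=
  e.1 = v ∧ e.2.1 = dep p v ∧ e.2.2.1 = (TT p k v).card ∧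
    Rep p ℓ e.2.2.2 {u | u ∈ TT p k v ∧ u ≠ v}

def Inv (p : List ℕ) (ℓ k : ℕ) (st : List Ent) : Prop :=
  st.length = p.length + 1 - k ∧ ∀ j, ∀ h : j < st.length, Cor p ℓ k (p.length - k - j) st[j]

theorem inv_init (p : List ℕ) (ℓ : ℕ) (hlen : (deps p).length = p.length + 1) :
    Inv p ℓ 0 (dpInit ℓ p) := by
  classical
  have hl : (dpInit ℓ p).length = p.length + 1 := by
    unfold dpInit
    rw [List.length_reverse, List.length_map, List.length_zipIdx, hlen]
  refine ⟨by rw [hl]; rfl, ?_⟩
  intro j h
  rw [hl] at h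
  have he : (dpInit ℓ p)[j]'(by rw [hl]; exact h) =
      (p.length - j, dep p (p.length - j), 1, [(unitM ℓ 0, 0)]) := by
    unfold dpInit
    rw [List.getElem_reverse, List.getElem_map, List.getElem_zipIdx]
    simp only [List.length_map, List.length_zipIdx, hlen, dep]
    have e1 : p.length + 1 - 1 - j = p.length - j := by omega
    simp only [Nat.zero_add, e1]
    rw [← List.getD_eq_getElem (deps p) 0 (by rw [hlen]; omega)]
  rw [he]
  have hT : TT p 0 (p.length - j) = {p.length - j} := by
    ext u
    unfold TT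
    simp only [rr, Finset.mem_filter, Finset.mem_range, Finset.mem_singleton]
    omega
  refine ⟨rfl, rfl, ?_, ?_⟩
  · show 1 = (TT p 0 (p.length - j)).card
    rw [hT, Finset.card_singleton]
  · apply rep_init
    intro u hu
    exfalso
    simp only [Nat.sub_zero, Set.mem_setOf_eq, hT, Finset.mem_singleton] at hu
    exact hu.2 hu.1

theorem inv_step (p : List ℕ) (ℓ : ℕ) (C : Tab)
    (hd : ∀ v, 1 ≤ v → v ≤ p.length → par p v < v ∧ dep p v = dep p (par p v) + 1)
    (hC : ∀ m x, m.length = ℓ → x ≤ p.length → (m, x) ∈ C)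
    (k : ℕ) (hk : k < p.length) (st : List Ent) (hst : Inv p ℓ k st) :
    Inv p ℓ (k + 1) (dpStep ℓ C st (par p (p.length - k))) := by
  classical
  obtain ⟨hlen, hcor⟩ := hst
  cases st with
  | nil => simp at hlen; omega
  | cons e st' =>
    rw [List.length_cons] at hlen
    have hq := hd (p.length - k) (by omega) (by omega)
    obtain ⟨e1, e2, e3, e4⟩ : Cor p ℓ k (p.length - k) e := by
      have := hcor 0 (by simp)
      simpa using this
    refine ⟨?_, ?_⟩
    · simp only [dpStep, List.length_map]
      omega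
    · intro j h
      simp only [dpStep, List.length_map] at h
      have hc : Cor p ℓ k (p.length - (k + 1) - j) (st'[j]'h) := by
        have := hcor (j + 1) (by simpa using h)
        rw [List.getElem_cons_succ] at this
        have e0 : p.length - k - (j + 1) = p.length - (k + 1) - j := by omega
        rwa [e0] at this
      simp only [dpStep, List.getElem_map]
      set v := p.length - (k + 1) - j with hv
      set f := st'[j]'h with hf
      obtain ⟨f1, f2, f3, f4⟩ := hc
      have hvk : v < p.length - k := by omega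
      by_cases hvq : v = par p (p.length - k)
      · rw [if_pos (by rw [f1]; exact hvq)]
        -- the sets
        have hTT : TT p (k + 1) v = TT p k v ∪ TT p k (p.length - k) := by
          ext u
          unfold TT
          simp only [Finset.mem_filter, Finset.mem_union, Finset.mem_range, rr]
          rw [← hvq]
          constructor
          · rintro ⟨h1, h2⟩
            split_ifs at h2 with h3
            · exact Or.inr ⟨h1, h3⟩
            · exact Or.inl ⟨h1, h2⟩
          · rintro (⟨h1, h2⟩ | ⟨h1, h2⟩)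
            · rw [if_neg (by omega)]
              exact ⟨h1, h2⟩
            · rw [if_pos h2]
              exact ⟨h1, rfl⟩
        have hdisj : Disjoint (TT p k v) (TT p k (p.length - k)) := by
          rw [Finset.disjoint_left]
          intro u hu hu'
          unfold TT at hu hu'
          rw [Finset.mem_filter] at hu hu'
          omega
        refine ⟨f1, f2, ?_, ?_⟩
        · show f.2.2.1 + e.2.2.1 = _
          rw [f3, e3, hTT, Finset.card_union_of_disjoint hdisj]
        · have hopt : Rep p ℓ (optT ℓ e) {u | u ∈ TT p k (p.length - k)} := by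
            have := rep_opt p ℓ hd (p.length - k) (by omega) (by omega) e.2.2.2
              (TT p k (p.length - k)) (by
                intro u
                unfold TT
                rw [Finset.mem_filter, Finset.mem_range]
                constructor
                · rintro ⟨h1, h2⟩
                  exact ⟨by omega, (rr_head p hd k hk.le u (by omega)).1 h2⟩
                · rintro ⟨h1, h2⟩
                  exact ⟨by omega, (rr_head p hd k hk.le u (by omega)).2 h2⟩) e4
            rw [← e3, ← e2] at this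
            have ee : (p.length - k, e.2.1, e.2.2.1, e.2.2.2) = e := by
              rw [← e1]
            rwa [ee] at this
          have hmg := rep_merge p ℓ hd C f.2.2.2 (optT ℓ e) {u | u ∈ TT p k v ∧ u ≠ v}
            {u | u ∈ TT p k (p.length - k)} hC (by
              intro w hw j j' h1 h2
              simp only [Set.mem_setOf_eq, TT, Finset.mem_filter, Finset.mem_range] at h1 h2
              obtain ⟨⟨_, h1⟩, h1'⟩ := h1
              obtain ⟨_, h2⟩ := h2
              have r1 : rr p k w = v := by
                rw [rr_high p hd k hk.le w hw j]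
                · exact h1
                · by_contra hle
                  rw [rr_self p hd k hk.le _ (by omega)] at h1
                  exact h1' h1
              have r2 : rr p k w = p.length - k := by
                by_cases hle : (par p)^[j'] w ≤ p.length - k
                · rw [rr_self p hd k hk.le _ hle] at h2
                  exact (rr_head p hd k hk.le w hw).2 ⟨j', h2⟩
                · rw [rr_high p hd k hk.le w hw j' (by omega)]
                  exact h2
              omega) f4 hopt
          have hset : ({u | u ∈ TT p k v ∧ u ≠ v} ∪ {u | u ∈ TT p k (p.length - k)} : Set ℕ) =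
              {u | u ∈ TT p (k + 1) v ∧ u ≠ v} := by
            ext u
            rw [hTT]
            simp only [Set.mem_union, Set.mem_setOf_eq, Finset.mem_union]
            constructor
            · rintro (⟨h1, h2⟩ | h1)
              · exact ⟨Or.inl h1, h2⟩
              · refine ⟨Or.inr h1, ?_⟩
                rintro rfl
                unfold TT at h1
                rw [Finset.mem_filter, rr_self p hd k hk.le _ (by omega)] at h1
                omega
            · rintro ⟨h1 | h1, h2⟩
              · exact Or.inl ⟨h1, h2⟩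
              · exact Or.inr h1
          rw [hset] at hmg
          exact hmg
      · rw [if_neg (by rw [f1]; exact hvq)]
        have hTT : TT p (k + 1) v = TT p k v := by
          ext u
          unfold TT
          simp only [Finset.mem_filter, rr]
          constructor
          · rintro ⟨h1, h2⟩
            split_ifs at h2 with h3
            · exact absurd h2.symm hvq
            · exact ⟨h1, h2⟩
          · rintro ⟨h1, h2⟩
            rw [if_neg (by omega)]
            exact ⟨h1, h2⟩
        refine ⟨f1, f2, ?_, ?_⟩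
        · rw [hTT]; exact f3
        · rw [hTT]; exact f4

theorem main (hDEP : S_DEP) : S_DPC := by
  classical
  intro p hp ℓ k
  obtain ⟨hlen, _, hd⟩ := hDEP p hp
  set C := cand p (masks ℓ (List.replicate (2 ^ ℓ) ())) with hCdef
  have hC : ∀ m x, m.length = ℓ → x ≤ p.length → (m, x) ∈ C := by
    intro m x hm hx
    rw [hCdef, mem_cand]
    exact ⟨mem_masks ℓ m hm, hx⟩
  have hinv : ∀ i, i ≤ p.length →
      Inv p ℓ i ((p.reverse.take i).foldl (dpStep ℓ C) (dpInit ℓ p)) := by
    intro i
    induction i with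
    | zero =>
      intro _
      simpa using inv_init p ℓ hlen
    | succ i ih =>
      intro hi
      have hil : i < p.reverse.length := by rw [List.length_reverse]; omega
      rw [List.take_succ_eq_append_getElem hil, List.foldl_append, List.foldl_cons,
        List.foldl_nil]
      have hpar : p.reverse[i] = par p (p.length - i) := by
        rw [List.getElem_reverse]
        unfold par
        rw [if_neg (by omega), List.getD_eq_getElem _ _ (by omega)]
        congr 1
        omega
      rw [hpar]
      exact inv_step p ℓ C hd hC i (by omega) _ (ih (by omega))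
  have hfin := hinv p.length le_rfl
  rw [List.take_of_length_le (by rw [List.length_reverse])] at hfin
  have hrun : Inv p ℓ p.length (dpRun ℓ (List.replicate (2 ^ ℓ) ()) p) := hfin
  obtain ⟨h1, h2⟩ := hrun
  have h1' : (dpRun ℓ (List.replicate (2 ^ ℓ) ()) p).length = 1 := by omega
  obtain ⟨e, he⟩ := List.length_eq_one_iff.1 h1'
  unfold dpAns
  have hce : Cor p ℓ p.length 0 e := by
    have := h2 0 (by omega)
    simpa [he] using this
  obtain ⟨_, _, _, hR⟩ := hce
  rw [he, List.any_cons, List.any_nil, Bool.or_false, List.any_eq_true]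
  constructor
  · rintro ⟨r, hr, hk⟩
    rw [decide_eq_true_eq] at hk
    obtain ⟨A, _, hA2, _, hA4⟩ := (hR r.1 r.2).1 hr
    refine ⟨A, hA2, ?_⟩
    have := Brn_Sv p A
    omega
  · rintro ⟨A, hA, hk⟩
    refine ⟨(msk p ℓ A, (Sv p A).card), (hR _ _).2 ⟨A, ?_, hA, rfl, rfl⟩, ?_⟩
    · intro a ha
      obtain ⟨ha1, ha2, _⟩ := hA.1 a ha
      refine ⟨?_, by omega⟩
      unfold TT
      rw [Finset.mem_filter, Finset.mem_range]
      refine ⟨by omega, ?_⟩
      have := rr_le p hd p.length le_rfl a ha2
      omega
    · rw [decide_eq_true_eq]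
      have := Brn_Sv p A
      simp only
      omega

end Helper85.FF.DPC
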