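import Pool.Agent.Helper86.FF.Spec

/-!
# Firefighter on trees, part RP: the reduction is polynomial in the size of the padded input
-/

set_option autoImplicit false
set_option linter.unusedSectionVars false

namespace Pool.Agent.NPC.H85RP

open Pool.FF Turing Pool.Agent.H633R2 Pool.Agent.NPC.H633

section

variable {α : Type} [TEnc α]

theorem poly_occ {φ : α → List Cl} (hφ : Poly φ) : Poly (fun a => occ (φ a)) := by
  unfold occ
  refine Poly.flatMap (F := fun _ (c : Cl) => [c.1.1, c.2.1.1, c.2.2.1]) hφ ?_
  exact Poly.cons (Poly.fst (Poly.fst (Poly.snd Poly.id)))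
    (Poly.cons (Poly.fst (Poly.fst (Poly.snd (Poly.snd Poly.id))))
      (Poly.cons (Poly.fst (Poly.snd (Poly.snd (Poly.snd Poly.id)))) (Poly.const [])))

theorem poly_ix {φ : α → List Cl} {x : α → ℕ} (hφ : Poly φ) (hx : Poly x) :
    Poly (fun a => ix (φ a) (x a)) := by
  unfold ix
  refine Poly.getD (Poly.map (F := fun _ (q : ℕ × ℕ) => q.2) (Poly.filter
    (p := fun a (q : ℕ × ℕ) => decide (q.1 = x a)) (Poly.zipIdx (poly_occ hφ)) ?_) ?_)
    (Poly.const 0) (Poly.const 0)
  · exact Poly.decide_eq (Poly.fst (Poly.snd Poly.id)) (hx.comp (Poly.fst Poly.id))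
  · exact Poly.snd (Poly.snd Poly.id)

theorem poly_prep {φ : α → List Cl} (hφ : Poly φ) : Poly (fun a => prep (φ a)) := by
  unfold prep
  refine Poly.map (F := fun a (c : Cl) => ((ix (φ a) c.1.1, c.1.2), (ix (φ a) c.2.1.1, c.2.1.2),
    (ix (φ a) c.2.2.1, c.2.2.2))) hφ ?_
  have h1 : Poly (fun p : α × Cl => φ p.1) := hφ.comp (Poly.fst Poly.id)
  have c1 : Poly (fun p : α × Cl => p.2.1) := Poly.fst (Poly.snd Poly.id)
  have c2 : Poly (fun p : α × Cl => p.2.2.1) := Poly.fst (Poly.snd (Poly.snd Poly.id))
  have c3 : Poly (fun p : α × Cl => p.2.2.2) := Poly.snd (Poly.snd (Poly.snd Poly.id))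
  exact Poly.pair (Poly.pair (poly_ix h1 (Poly.fst c1)) (Poly.snd c1))
    (Poly.pair (Poly.pair (poly_ix h1 (Poly.fst c2)) (Poly.snd c2))
      (Poly.pair (poly_ix h1 (Poly.fst c3)) (Poly.snd c3)))

theorem poly_litSide {g j : α → ℕ} {a : α → List Bool} {l : α → Lit} (hg : Poly g) (hj : Poly j)
    (ha : Poly a) (hl : Poly l) : Poly (fun x => litSide (g x) (j x) (a x) (l x)) := by
  unfold litSide
  refine Poly.ite (Poly.decide_eq (Poly.div (Poly.fst hl) hg) hj) ?_ (Poly.const [])
  refine Poly.cons (Poly.pair (Poly.const false) (Poly.pair ?_ (Poly.const []))) (Poly.const [])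
  exact Poly.ite (Poly.decide_eq (Poly.getD ha (Poly.mod (Poly.fst hl) hg) (Poly.const false))
    (Poly.snd hl)) (Poly.const 3) (Poly.const 2)

theorem poly_chF {W g K H d : α → ℕ} {cs : α → List Cl} {x : α → Dt} (hW : UPoly W) (hg : Poly g)
    (hcs : Poly cs) (hK : UPoly K) (hH : Poly H) (hd : Poly d) (hx : Poly x) :
    Poly (fun a => chF (W a) (g a) (cs a) (K a) (H a) (d a) (x a)) := by
  unfold chF
  have hW' : Poly W := hW.toPoly
  have hj : Poly (fun a => (x a).2.1) := Poly.fst (Poly.snd hx)
  have ha : Poly (fun a => (x a).2.2) := Poly.snd (Poly.snd hx)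
  have hd1 : Poly (fun a => d a - 1) := Poly.sub hd (Poly.const 1)
  have hq : Poly (fun a => (d a - 1) / 3) := Poly.div hd1 (Poly.const 3)
  have hm : Poly (fun a => (d a - 1) % 3) := Poly.mod hd1 (Poly.const 3)
  have hWg : Poly (fun a => W a * g a) := Poly.mul hW' hg
  have hself : Poly (fun a => ((true, (x a).2.1, (x a).2.2) : Dt)) :=
    Poly.pair (Poly.const true) (Poly.pair hj ha)
  have hone : Poly (fun a => [((true, (x a).2.1, (x a).2.2) : Dt)]) :=
    Poly.cons hself (Poly.const [])
  have hc : Poly (fun a => (cs a).getD ((d a - 1) / 3 - W a * g a) default) :=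
    Poly.getD hcs (Poly.sub hq hWg) (Poly.const default)
  refine Poly.ite (Poly.decide_eq hd (Poly.const 0)) ?_ ?_
  · refine Poly.cons (Poly.const _) (Poly.map (F := fun _ (j : ℕ) => ((true, j, []) : Dt))
      hW.range ?_)
    exact Poly.pair (Poly.const true) (Poly.pair (Poly.snd Poly.id) (Poly.const []))
  refine Poly.ite (Poly.decide_eq (Poly.fst hx) (Poly.const false)) ?_ ?_
  · refine Poly.ite (Poly.decide_eq hj (Poly.const 0)) (Poly.const []) ?_
    refine Poly.ite (Poly.decide_eq hj (Poly.const 1)) ?_ ?_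
    · refine (Poly.map (F := fun _ (_ : Unit) => ((false, 0, []) : Dt)) hK (Poly.const _)).congr
        fun a => ?_
      simp
    · exact Poly.cons (Poly.pair (Poly.const false) (Poly.pair (Poly.sub hj (Poly.const 1))
        (Poly.const []))) (Poly.const [])
  refine Poly.ite (Poly.decide_le hH hd) (Poly.const []) ?_
  refine Poly.ite (Poly.decide_lt hq hWg) ?_ ?_
  · refine Poly.ite (Poly.decide_eq hj (Poly.div hq hg)) ?_ hone
    refine Poly.ite (Poly.decide_eq hm (Poly.const 0)) ?_ ?_
    · exact Poly.cons (Poly.pair (Poly.const true) (Poly.pair hj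
        (Poly.append ha (Poly.const [false])))) (Poly.cons (Poly.pair (Poly.const true)
          (Poly.pair hj (Poly.append ha (Poly.const [true])))) (Poly.const []))
    · refine Poly.ite (Poly.decide_eq hm (Poly.const 1)) ?_ hone
      exact Poly.cons (Poly.const _) (Poly.cons (Poly.const _) hone)
  · refine Poly.ite (Poly.decide_eq hm (Poly.const 0)) ?_ hone
    refine Poly.append (Poly.append (Poly.append ?_ ?_) ?_) hone
    · exact poly_litSide hg hj ha (Poly.fst hc)
    · exact poly_litSide hg hj ha (Poly.fst (Poly.snd hc))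
    · exact poly_litSide hg hj ha (Poly.snd (Poly.snd hc))

end

/-! ### bounds on the children -/

theorem length_litSide (g j : ℕ) (a : List Bool) (l : Lit) : (litSide g j a l).length ≤ 1 := by
  unfold litSide
  split_ifs <;> simp

theorem mem_litSide {g j : ℕ} {a : List Bool} {l : Lit} {y : Dt} (h : y ∈ litSide g j a l) :
    y.2.1 ≤ 3 ∧ y.2.2.length = 0 := by
  unfold litSide at h
  split_ifs at h <;> simp at h <;> subst h <;> simp

theorem length_chF (W g : ℕ) (cs : List Cl) (K H d : ℕ) (x : Dt) :
    (chF W g cs K H d x).length ≤ W + K + 4 := by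
  have h1 := fun l => length_litSide g x.2.1 x.2.2 l
  unfold chF
  split_ifs
  all_goals first
    | (simp; done)
    | (simp; omega)
    | (simp only [List.length_append, List.length_singleton]
       have := h1 (cs.getD ((d - 1) / 3 - W * g) default).1
       have := h1 (cs.getD ((d - 1) / 3 - W * g) default).2.1
       have := h1 (cs.getD ((d - 1) / 3 - W * g) default).2.2
       omega)

theorem mem_chF (W g : ℕ) (cs : List Cl) (K H d t : ℕ) (x : Dt)
    (hx : x.2.1 ≤ W + 3 ∧ x.2.2.length ≤ t) (y : Dt) (hy : y ∈ chF W g cs K H d x) :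
    y.2.1 ≤ W + 3 ∧ y.2.2.length ≤ t + 1 := by
  obtain ⟨hx1, hx2⟩ := hx
  unfold chF at hy
  split_ifs at hy
  · rw [List.mem_cons, List.mem_map] at hy
    rcases hy with rfl | ⟨j, hj, rfl⟩
    · simp
    · rw [List.mem_range] at hj
      simp; omega
  · simp at hy
  · rw [List.mem_replicate] at hy
    rw [hy.2]; simp
  · rw [List.mem_singleton] at hy
    subst hy
    simp; omega
  · simp at hy
  · simp only [List.mem_cons, List.not_mem_nil, or_false] at hy
    rcases hy with rfl | rfl <;> simp <;> omega
  · simp only [List.mem_cons, List.not_mem_nil, or_false] at hy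
    rcases hy with rfl | rfl | rfl <;> simp <;> omega
  · rw [List.mem_singleton] at hy
    subst hy
    simp; omega
  · rw [List.mem_singleton] at hy
    subst hy
    simp; omega
  · simp only [List.mem_append, List.mem_singleton] at hy
    rcases hy with ((hy | hy) | hy) | hy
    · have := mem_litSide hy; omega
    · have := mem_litSide hy; omega
    · have := mem_litSide hy; omega
    · subst hy; simp; omega
  · rw [List.mem_singleton] at hy
    subst hy
    simp; omega

/-! ### the invariant -/

/-- bounds for the state after `k` steps -/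
def Bd (W B k : ℕ) (st : List Dt × ℕ × List ℕ) : Prop :=
  st.1.length ≤ B ∧ (∀ x ∈ st.1, x.2.1 ≤ W + 3 ∧ x.2.2.length ≤ k) ∧ st.2.1 ≤ k * B ∧
    st.2.2.length ≤ k * (B * B) ∧ ∀ y ∈ st.2.2, y ≤ k * B + B

theorem mem_trunc {γ : Type} {u : List Unit} {l : List γ} {y : γ} (h : y ∈ trunc u l) : y ∈ l := by
  unfold trunc at h
  rw [List.mem_map] at h
  obtain ⟨p, hp, rfl⟩ := h
  exact (List.of_mem_zip hp).1

theorem length_trunc {γ : Type} (u : List Unit) (l : List γ) :
    (trunc u l).length ≤ u.length := by
  unfold trunc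
  rw [List.length_map, List.length_zip]
  exact Nat.min_le_right _ _

theorem length_flatMap_le {γ δ : Type} (l : List γ) (f : γ → List δ) (B : ℕ)
    (h : ∀ x ∈ l, (f x).length ≤ B) : (l.flatMap f).length ≤ l.length * B := by
  induction l with
  | nil => simp
  | cons a l ih =>
    have h1 := ih (fun x hx => h x (List.mem_cons_of_mem _ hx))
    have h2 := h a List.mem_cons_self
    rw [List.flatMap_cons, List.length_append, List.length_cons]
    nlinarith

theorem bd_step (W g : ℕ) (cs : List Cl) (K H B k big t : ℕ) (hb : big ≤ B) (hB : W + K + 4 ≤ B)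
    (st : List Dt × ℕ × List ℕ) (h : Bd W B k st) :
    Bd W B (k + 1) (unfStepT (List.replicate big ()) (chF W g cs K H t) st) := by
  obtain ⟨h1, h2, h3, h4, h5⟩ := h
  have hl : (st.1.zipIdx.flatMap (fun x => (chF W g cs K H t x.1).map
      (fun _ => st.2.1 + x.2))).length ≤ B * B := by
    refine (length_flatMap_le _ _ B ?_).trans ?_
    · intro x _
      rw [List.length_map]
      exact (length_chF W g cs K H t x.1).trans hB
    · rw [List.length_zipIdx]
      exact Nat.mul_le_mul_right _ h1
  refine ⟨?_, ?_, ?_, ?_, ?_⟩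
  · refine (length_trunc _ _).trans ?_
    rw [List.length_replicate]
    exact hb
  · intro y hy
    have hy' := mem_trunc hy
    rw [List.mem_flatMap] at hy'
    obtain ⟨x, hx, hy'⟩ := hy'
    exact mem_chF W g cs K H t k x (h2 x hx) y hy'
  · show st.2.1 + st.1.length ≤ (k + 1) * B
    nlinarith
  · show (st.2.2 ++ _).length ≤ (k + 1) * (B * B)
    rw [List.length_append]
    nlinarith
  · intro y hy
    replace hy : y ∈ st.2.2 ++ st.1.zipIdx.flatMap (fun x => (chF W g cs K H t x.1).map
      (fun _ => st.2.1 + x.2)) := hy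
    rw [List.mem_append] at hy
    rcases hy with hy | hy
    · have := h5 y hy
      nlinarith
    · rw [List.mem_flatMap] at hy
      obtain ⟨x, hx, hy⟩ := hy
      rw [List.mem_map] at hy
      obtain ⟨_, _, rfl⟩ := hy
      have := List.snd_lt_of_mem_zipIdx hx
      nlinarith

theorem bd_fold (W g : ℕ) (cs : List Cl) (K H B big : ℕ) (hb : big ≤ B) (hB : W + K + 4 ≤ B) :
    ∀ (l : List ℕ) (k : ℕ) (st : List Dt × ℕ × List ℕ), Bd W B k st →
      Bd W B (k + l.length) (l.foldl (fun st t => unfStepT (List.replicate big ())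
        (chF W g cs K H t) st) st) := by
  intro l
  induction l with
  | nil => intro k st h; simpa using h
  | cons t l ih =>
    intro k st h
    rw [List.foldl_cons, List.length_cons]
    have := ih (k + 1) _ (bd_step W g cs K H B k big t hb hB st h)
    have e : k + 1 + l.length = k + (l.length + 1) := by ring
    rwa [e] at this

theorem sz_dt (x : Dt) (W k : ℕ) (h1 : x.2.1 ≤ W + 3) (h2 : x.2.2.length ≤ k) :
    sz x ≤ 4 * W + 4 * k + 19 := by
  obtain ⟨b, j, a⟩ := x
  simp only at h1 h2
  rw [sz_pair, sz_pair]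
  have e1 := sz_bool_le b
  have e2 := sz_nat_le j
  have e3 := Poly.size_le_self j
  have e4 := sz_listBool_le a
  omega

theorem sz_bd (W B k : ℕ) (st : List Dt × ℕ × List ℕ) (h : Bd W B k st) (hk : k ≤ B)
    (hW : W ≤ B) (hB1 : 1 ≤ B) :
    sz st ≤ B * (8 * B + 20) + 1 + (4 * (B * B) + 1) + (B * B * B * (8 * (B * B) + 2) + 1) + 2 := by
  obtain ⟨h1, h2, h3, h4, h5⟩ := h
  obtain ⟨l, m, c⟩ := st
  simp only at h1 h2 h3 h4 h5
  rw [sz_pair, sz_pair]
  have e1 : sz l ≤ B * (8 * B + 20) + 1 := by
    have := sz_le_length_mul l (8 * B + 19) (fun x hx => by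
      have := sz_dt x W k (h2 x hx).1 (h2 x hx).2
      omega)
    exact this.trans (Nat.add_le_add_right (Nat.mul_le_mul_right _ h1) 1)
  have e2 : sz m ≤ 4 * (B * B) + 1 := by
    have a1 := sz_nat_le m
    have a2 := Poly.size_le_self m
    have a3 : k * B ≤ B * B := Nat.mul_le_mul_right _ hk
    have a4 := h3.trans a3
    omega
  have e3 : sz c ≤ B * B * B * (8 * (B * B) + 2) + 1 := by
    have := sz_le_length_mul c (8 * (B * B) + 1) (fun y hy => by
      have a0 := h5 y hy
      have a1 := sz_nat_le y
      have a2 := Poly.size_le_self y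
      have a3 : k * B ≤ B * B := Nat.mul_le_mul_right _ hk
      have a4 : B ≤ B * B := by nlinarith
      omega)
    have a5 : c.length ≤ B * B * B := by
      refine h4.trans ?_
      have := Nat.mul_le_mul_right (B * B) hk
      calc k * (B * B) ≤ B * (B * B) := this
        _ = B * B * B := by ring
    exact this.trans (Nat.add_le_add_right (Nat.mul_le_mul_right _ a5) 1)
  omega

/-! ### the parameters -/

/-- the type of the inputs -/
abbrev X : Type := (List Unit × List Cl) × List Unit

theorem upoly_W : UPoly (fun x : X => x.1.1.length) := UPoly.length (Poly.fst (Poly.fst Poly.id))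

theorem poly_phi : Poly (fun x : X => x.1.2) := Poly.snd (Poly.fst Poly.id)

theorem upoly_m : UPoly (fun x : X => x.1.2.length) := UPoly.length poly_phi

theorem upoly_pad : UPoly (fun x : X => x.2.length) := UPoly.length (Poly.snd Poly.id)

theorem upoly_gg : UPoly (fun x : X => gg x.1.1.length x.1.2) := by
  unfold gg
  refine UPoly.of_le (n := fun x : X => 3 * x.1.2.length + 1)
    (Poly.succ (Poly.div (Poly.mul (Poly.const 3) upoly_m.toPoly) upoly_W.toPoly)) ?_ ?_
  · exact UPoly.add (UPoly.mul (UPoly.const 3) upoly_m) (UPoly.const 1)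
  · intro a
    exact Nat.add_le_add_right (Nat.div_le_self _ _) 1

theorem upoly_HH : UPoly (fun x : X => HH x.1.1.length x.1.2) := by
  unfold HH
  exact UPoly.add (UPoly.const 1) (UPoly.mul (UPoly.const 3)
    (UPoly.add (UPoly.mul upoly_W upoly_gg) upoly_m))

theorem upoly_kk : UPoly (fun x : X => kk x.1.1.length x.1.2) := by
  unfold kk
  exact UPoly.add (UPoly.const 1) (UPoly.mul upoly_HH (UPoly.add upoly_W (UPoly.const 3)))

theorem upoly_KK : UPoly (fun x : X => KK x.1.1.length x.1.2) := by
  unfold KK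
  exact UPoly.add (UPoly.add upoly_kk upoly_HH) (UPoly.const 2)

/-- the bound of the length of a level -/
def bigF (x : X) : ℕ :=
  x.1.1.length * x.2.length * (3 * (KK x.1.1.length x.1.2 + 1) * (HH x.1.1.length x.1.2 + 1) + 1)

theorem upoly_big : UPoly bigF := by
  unfold bigF
  exact UPoly.mul (UPoly.mul upoly_W upoly_pad) (UPoly.add (UPoly.mul (UPoly.mul (UPoly.const 3)
    (UPoly.add upoly_KK (UPoly.const 1))) (UPoly.add upoly_HH (UPoly.const 1))) (UPoly.const 1))

theorem upoly_bound {α : Type} [TEnc α] {n : α → ℕ} (h : UPoly n) :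
    ∃ r : Polynomial ℕ, ∀ a, n a ≤ r.eval (sz a) := by
  obtain ⟨r, hr⟩ := Poly.sz_le h
  refine ⟨r, fun a => ?_⟩
  have := length_lt_sz (List.replicate (n a) ())
  rw [List.length_replicate] at this
  exact this.le.trans (hr a)

theorem main : S_RP := by
  unfold S_RP
  refine Poly.pair ?_ (Poly.pair upoly_kk.toPoly upoly_HH.toPoly)
  -- the bound
  have hBu : UPoly (fun x : X => bigF x + x.1.1.length + KK x.1.1.length x.1.2 +
      HH x.1.1.length x.1.2 + 5) :=
    UPoly.add (UPoly.add (UPoly.add (UPoly.add upoly_big upoly_W) upoly_KK) upoly_HH)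
      (UPoly.const 5)
  obtain ⟨r, hr⟩ := upoly_bound hBu
  have hfold : Poly (fun x : X => (List.range (HH x.1.1.length x.1.2 + 1)).foldl
      (fun st t => unfStepT (List.replicate (bigF x) ()) (chR x.1.1.length x.1.2 t) st)
      (([rootD], 0, []) : List Dt × ℕ × List ℕ)) := by
    refine Poly.foldl (l := fun x : X => List.range (HH x.1.1.length x.1.2 + 1))
      (s := fun _ : X => (([rootD], 0, []) : List Dt × ℕ × List ℕ))
      (F := fun x st t => unfStepT (List.replicate (bigF x) ()) (chR x.1.1.length x.1.2 t) st)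
      (UPoly.range (UPoly.add upoly_HH (UPoly.const 1))) (Poly.const _) ?_
      (r * (8 * r + 20) + 1 + (4 * (r * r) + 1) + (r * r * r * (8 * (r * r) + 2) + 1) + 2) ?_
    · -- the step
      have hx1 : Poly (fun p : X × (List Dt × ℕ × List ℕ) × ℕ => p.1) := Poly.fst Poly.id
      have hst : Poly (fun p : X × (List Dt × ℕ × List ℕ) × ℕ => p.2.1) :=
        Poly.fst (Poly.snd Poly.id)
      have hch : ∀ {α : Type} [TEnc α] {x : α → X} {t : α → ℕ} {y : α → Dt}, Poly x → Poly t →
          Poly y → Poly (fun a => chR (x a).1.1.length (x a).1.2 (t a) (y a)) := by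
        intro α _ x t y hx ht hy
        unfold chR
        exact poly_chF (UPoly.comp (n := fun x : X => x.1.1.length) upoly_W hx)
          (Poly.comp (g := fun x : X => gg x.1.1.length x.1.2) upoly_gg.toPoly hx)
          (poly_prep (Poly.snd (Poly.fst hx)))
          (UPoly.comp (n := fun x : X => KK x.1.1.length x.1.2) upoly_KK hx)
          (Poly.comp (g := fun x : X => HH x.1.1.length x.1.2) upoly_HH.toPoly hx) ht hy
      unfold unfStepT
      refine Poly.pair ?_ (Poly.pair ?_ ?_)
      · unfold trunc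
        refine Poly.map (F := fun _ (q : Dt × Unit) => q.1) (Poly.zip ?_
          (UPoly.comp (n := bigF) upoly_big hx1)) (Poly.fst (Poly.snd Poly.id))
        refine Poly.flatMap (F := fun (p : X × (List Dt × ℕ × List ℕ) × ℕ) (y : Dt) =>
          chR p.1.1.1.length p.1.1.2 p.2.2 y) (Poly.fst hst) ?_
        exact hch (Poly.fst (Poly.fst Poly.id)) (Poly.snd (Poly.snd (Poly.fst Poly.id)))
          (Poly.snd Poly.id)
      · exact Poly.add (Poly.fst (Poly.snd hst)) (Poly.length (Poly.fst hst))
      · refine Poly.append (Poly.snd (Poly.snd hst)) ?_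
        refine Poly.flatMap (F := fun (p : X × (List Dt × ℕ × List ℕ) × ℕ) (y : Dt × ℕ) =>
          (chR p.1.1.1.length p.1.1.2 p.2.2 y.1).map (fun _ => p.2.1.2.1 + y.2))
          (Poly.zipIdx (Poly.fst hst)) ?_
        refine Poly.map (F := fun (q : (X × (List Dt × ℕ × List ℕ) × ℕ) × (Dt × ℕ)) (_ : Dt) =>
          q.1.2.1.2.1 + q.2.2) ?_ ?_
        · exact hch (Poly.fst (Poly.fst Poly.id)) (Poly.snd (Poly.snd (Poly.fst Poly.id)))
            (Poly.fst (Poly.snd Poly.id))
        · exact Poly.add (Poly.fst (Poly.snd (Poly.fst (Poly.snd (Poly.fst (Poly.fst Poly.id))))))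
            (Poly.snd (Poly.snd (Poly.fst Poly.id)))
    · -- the bound of the size
      intro x k hk
      rw [List.length_range] at hk
      set B := bigF x + x.1.1.length + KK x.1.1.length x.1.2 + HH x.1.1.length x.1.2 + 5 with hB
      have hBr : B ≤ r.eval (sz x) := hr x
      have h0 : Bd x.1.1.length B 0 (([rootD], 0, []) : List Dt × ℕ × List ℕ) := by
        refine ⟨?_, ?_, ?_, ?_, ?_⟩
        · simp; omega
        · intro y hy
          simp only [List.mem_singleton] at hy
          subst hy
          simp [rootD]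
        · simp
        · simp
        · simp
      have h1 := bd_fold x.1.1.length (gg x.1.1.length x.1.2) (prep x.1.2)
        (KK x.1.1.length x.1.2) (HH x.1.1.length x.1.2) B (bigF x) (by omega) (by omega)
        ((List.range (HH x.1.1.length x.1.2 + 1)).take k) 0 _ h0
      have hlen : ((List.range (HH x.1.1.length x.1.2 + 1)).take k).length = k := by
        rw [List.length_take, List.length_range]
        omega
      rw [hlen, Nat.zero_add] at h1
      have h2 := sz_bd x.1.1.length B k _ h1 (by omega) (by omega) (by omega)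
      refine h2.trans ?_
      simp only [Polynomial.eval_add, Polynomial.eval_mul, Polynomial.eval_one,
        Polynomial.eval_ofNat]
      gcongr
  exact (Poly.snd (Poly.snd hfold))

end Pool.Agent.NPC.H85RP
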